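import Pool.Agent.H62.Jump.Main
import Pool.Agent.H65.Jump.Red

/-! The number `r! / r ^ r` is not a jump for any `r ≥ 200`, in a strong uniform form. -/

namespace Pool.Agent.H62.JumpAll

open Finset Filter Topology

/-- `r ^ (-r)` is a limit from above of values of Lagrangians of `r`-graphs. -/
def NJ (r : ℕ) : Prop := ∀ c : ℝ, (r : ℝ)⁻¹ ^ r < c →
  ∃ (V : Type) (_ : Fintype V) (_ : DecidableEq V) (E : Finset (Finset V)),
    (∀ e ∈ E, e.card = r) ∧
    (∃ c' : ℝ, c' < c ∧ ∀ y : V → ℝ, (∀ v, 0 ≤ y v) →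
      ∑ e ∈ E, ∏ v ∈ e, y v ≤ c' * (∑ v, y v) ^ r) ∧
    (∃ a : V → ℝ, (∀ v, 0 ≤ a v) ∧ (0 < ∑ v, a v) ∧
      (r : ℝ)⁻¹ ^ r * (∑ v, a v) ^ r < ∑ e ∈ E, ∏ v ∈ e, a v)

theorem nj_base : NJ 200 := by
  intro c hc
  obtain ⟨V, i1, i2, E, hE, ⟨c', hc', hup⟩, a, ha⟩ := Pool.Agent.H62.Jump.exists_lag c hc
  refine ⟨V, i1, i2, E, hE, ⟨c', hc', hup⟩, fun v => (a v : ℝ), fun v => Nat.cast_nonneg _, ?_, ha⟩
  have hnn : 0 ≤ ∑ v, (a v : ℝ) := Finset.sum_nonneg (fun v _ => Nat.cast_nonneg _)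
  rcases hnn.lt_or_eq with h | h
  · exact h
  · exfalso
    have h0 := hup (fun v => (a v : ℝ)) (fun v => Nat.cast_nonneg _)
    rw [← h] at ha h0
    rw [zero_pow (by norm_num), mul_zero] at ha h0
    exact absurd (lt_of_lt_of_le ha h0) (lt_irrefl _)

/-- weighted arithmetic-geometric mean inequality -/
theorem amgm (r : ℕ) (hr : 0 < r) (x Y : ℝ) (hx : 0 ≤ x) (hY : 0 ≤ Y) :
    ((r : ℝ) + 1) ^ (r + 1) * (x * Y ^ r) ≤ (r : ℝ) ^ r * (x + Y) ^ (r + 1) := by
  have hr0 : (0 : ℝ) < r := by exact_mod_cast hr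
  rcases hY.lt_or_eq with hY | hY
  · have hb : 1 + ((r + 1 : ℕ) : ℝ) * ((r : ℝ) * (x + Y) / (((r : ℝ) + 1) * Y) - 1)
        ≤ (1 + ((r : ℝ) * (x + Y) / (((r : ℝ) + 1) * Y) - 1)) ^ (r + 1) := by
      apply one_add_mul_le_pow
      have : 0 ≤ (r : ℝ) * (x + Y) / (((r : ℝ) + 1) * Y) := by positivity
      linarith
    have e1 : 1 + ((r + 1 : ℕ) : ℝ) * ((r : ℝ) * (x + Y) / (((r : ℝ) + 1) * Y) - 1)
        = (r : ℝ) * x / Y := by
      push_cast
      field_simp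
      ring
    have e2 : (1 + ((r : ℝ) * (x + Y) / (((r : ℝ) + 1) * Y) - 1)) ^ (r + 1)
        = (r : ℝ) ^ (r + 1) * (x + Y) ^ (r + 1) / (((r : ℝ) + 1) ^ (r + 1) * Y ^ (r + 1)) := by
      rw [add_sub_cancel, div_pow, mul_pow, mul_pow]
    rw [e1, e2, div_le_div_iff₀ hY (by positivity)] at hb
    have h3 : ((r : ℝ) * Y) * (((r : ℝ) + 1) ^ (r + 1) * (x * Y ^ r))
        ≤ ((r : ℝ) * Y) * ((r : ℝ) ^ r * (x + Y) ^ (r + 1)) := by
      calc ((r : ℝ) * Y) * (((r : ℝ) + 1) ^ (r + 1) * (x * Y ^ r))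
          = (r : ℝ) * x * (((r : ℝ) + 1) ^ (r + 1) * Y ^ (r + 1)) := by ring
        _ ≤ (r : ℝ) ^ (r + 1) * (x + Y) ^ (r + 1) * Y := hb
        _ = _ := by ring
    exact le_of_mul_le_mul_left h3 (by positivity)
  · rw [← hY, zero_pow (by omega : r ≠ 0), mul_zero, mul_zero]
    positivity

theorem nj_succ (r : ℕ) (hr : 0 < r) (h : NJ r) : NJ (r + 1) := by
  intro c hc
  have hr0 : (0 : ℝ) < r := by exact_mod_cast hr
  have hc1 : 0 < c := lt_trans (by positivity) hc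
  obtain ⟨V, i1, i2, E, hE, ⟨c', hc', hup⟩, a, ha0, has, ha⟩ :=
    h (c * ((r : ℝ) + 1) ^ (r + 1) / (r : ℝ) ^ r) (by
      rw [lt_div_iff₀ (by positivity), inv_pow, inv_mul_cancel₀ (by positivity)]
      rw [inv_pow, inv_lt_iff_one_lt_mul₀ (by positivity)] at hc
      push_cast at hc
      linarith)
  have hsum : ∀ y : Option V → ℝ, ∑ e ∈ E.map Finset.insertNone.toEmbedding, ∏ v ∈ e, y v
      = y none * ∑ e ∈ E, ∏ v ∈ e, y (some v) := by
    intro y
    rw [Finset.sum_map, Finset.mul_sum]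
    refine Finset.sum_congr rfl (fun e _ => ?_)
    exact Finset.prod_insertNone y e
  refine ⟨Option V, inferInstance, inferInstance, E.map Finset.insertNone.toEmbedding, ?_, ?_, ?_⟩
  · intro e he
    rw [Finset.mem_map] at he
    obtain ⟨e', he', rfl⟩ := he
    have : (Finset.insertNone e').card = e'.card + 1 := Finset.card_insertNone e'
    rw [hE e' he'] at this
    exact this
  · refine ⟨max c' 0 * ((r : ℝ) ^ r / ((r : ℝ) + 1) ^ (r + 1)), ?_, ?_⟩
    · have h1 : max c' 0 < c * ((r : ℝ) + 1) ^ (r + 1) / (r : ℝ) ^ r := max_lt hc' (by positivity)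
      rw [lt_div_iff₀ (by positivity)] at h1
      rw [← mul_div_assoc, div_lt_iff₀ (by positivity)]
      exact h1
    · intro y hy
      rw [hsum, Fintype.sum_option]
      have h1 := hup (fun v => y (some v)) (fun v => hy _)
      set Y : ℝ := ∑ v, y (some v) with hYd
      have hY : 0 ≤ Y := Finset.sum_nonneg (fun v _ => hy _)
      have h2 : ∑ e ∈ E, ∏ v ∈ e, y (some v) ≤ max c' 0 * Y ^ r :=
        h1.trans (mul_le_mul_of_nonneg_right (le_max_left _ _) (by positivity))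
      have h3 := amgm r hr (y none) Y (hy none) hY
      calc y none * ∑ e ∈ E, ∏ v ∈ e, y (some v) ≤ y none * (max c' 0 * Y ^ r) :=
            mul_le_mul_of_nonneg_left h2 (hy none)
        _ = max c' 0 / ((r : ℝ) + 1) ^ (r + 1) * (((r : ℝ) + 1) ^ (r + 1) * (y none * Y ^ r)) := by
            field_simp
        _ ≤ max c' 0 / ((r : ℝ) + 1) ^ (r + 1) * ((r : ℝ) ^ r * (y none + Y) ^ (r + 1)) :=
            mul_le_mul_of_nonneg_left h3 (by positivity)
        _ = _ := by ring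
  · refine ⟨fun v => match v with | none => (∑ v, a v) / r | some v => a v, ?_, ?_, ?_⟩
    · intro v
      cases v with
      | none => exact div_nonneg has.le hr0.le
      | some v => exact ha0 v
    · rw [Fintype.sum_option]
      have : 0 < (∑ v, a v) / r := div_pos has hr0
      linarith
    · rw [hsum, Fintype.sum_option]
      show ((r + 1 : ℕ) : ℝ)⁻¹ ^ (r + 1) * ((∑ v, a v) / r + ∑ v, a v) ^ (r + 1)
        < (∑ v, a v) / r * ∑ e ∈ E, ∏ v ∈ e, a v
      set A : ℝ := ∑ v, a v with hA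
      have h1 : A / r * ((r : ℝ)⁻¹ ^ r * A ^ r) < A / r * ∑ e ∈ E, ∏ v ∈ e, a v :=
        mul_lt_mul_of_pos_left ha (div_pos has hr0)
      refine lt_of_eq_of_lt ?_ h1
      have h2 : A / r + A = A * (((r + 1 : ℕ) : ℝ) / r) := by
        push_cast
        field_simp
        ring
      rw [h2, mul_pow, div_pow, inv_pow, inv_pow]
      have : ((r + 1 : ℕ) : ℝ) ^ (r + 1) ≠ 0 := by positivity
      field_simp
      ring

theorem nj_all (r : ℕ) (hr : 200 ≤ r) : NJ r := by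
  induction r, hr using Nat.le_induction with
  | base => exact nj_base
  | succ n hn ih => exact nj_succ n (by omega) ih

/-- For every `r ≥ 200` and every `c > r ^ (-r)` there is `ε > 0` such that for all large `n` some
`r`-uniform hypergraph with at least `(1 + ε) (n / r) ^ r` edges has fewer than `c * |S| ^ r` edges
inside every nonempty vertex set `S`. -/
theorem nonjump (r : ℕ) (hr : 200 ≤ r) (c : ℝ) (hc : (1 : ℝ) / (r : ℝ) ^ r < c) :
    ∃ ε : ℝ, 0 < ε ∧ ∃ n₀ : ℕ, ∀ n : ℕ, n₀ ≤ n → ∃ H : Finset (Finset (Fin n)),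
      (∀ e ∈ H, e.card = r) ∧ (1 + ε) * ((n : ℝ) / r) ^ r ≤ (H.card : ℝ) ∧
      ∀ S : Finset (Fin n), S.Nonempty →
        ((H.filter (fun e => e ⊆ S)).card : ℝ) < c * (S.card : ℝ) ^ r := by
  have hc' : (r : ℝ)⁻¹ ^ r < c := by rwa [inv_pow, ← one_div]
  obtain ⟨V, i1, i2, E, hE, ⟨c', hc', hup'⟩, a, ha0, has, ha⟩ := nj_all r hr c hc'
  have hup : ∀ w : V → ℝ, (∀ v, 0 ≤ w v) → ∑ v, w v = 1 → H65.Jump.lag E w < c := by
    intro w hw0 hw1
    have := hup' w hw0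
    rw [hw1, one_pow, mul_one] at this
    exact lt_of_le_of_lt this hc'
  set A : ℝ := ∑ v, a v with hA
  set w : V → ℝ := fun v => a v / A with hwd
  have hw0 : ∀ v, 0 ≤ w v := fun v => div_nonneg (ha0 v) has.le
  have hw1 : ∑ v, w v = 1 := by rw [hwd, ← Finset.sum_div, div_self has.ne']
  have hlow : (r : ℝ)⁻¹ ^ r < H65.Jump.lag E w := by
    have h1 : H65.Jump.lag E w = (∑ e ∈ E, ∏ v ∈ e, a v) / A ^ r := by
      rw [H65.Jump.lag, Finset.sum_div]
      refine Finset.sum_congr rfl (fun e he => ?_)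
      rw [hwd, Finset.prod_div_distrib, Finset.prod_const, hE e he]
    rw [h1, lt_div_iff₀ (by positivity)]
    exact ha
  have hr0 : (0 : ℝ) < r := by exact_mod_cast (by omega : 0 < r)
  have hrr : (0 : ℝ) < (r : ℝ)⁻¹ ^ r := by positivity
  have hV : Nonempty V := by
    by_contra hne
    rw [not_nonempty_iff] at hne
    simp at hw1
  set ε : ℝ := (H65.Jump.lag E w / (r : ℝ)⁻¹ ^ r - 1) / 2 with hε
  have hε0 : 0 < ε := by
    have : 1 < H65.Jump.lag E w / (r : ℝ)⁻¹ ^ r := by rw [lt_div_iff₀ hrr]; linarith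
    linarith
  have hε1 : (1 + ε) * (r : ℝ)⁻¹ ^ r < H65.Jump.lag E w := by
    have : 1 < H65.Jump.lag E w / (r : ℝ)⁻¹ ^ r := by rw [lt_div_iff₀ hrr]; linarith
    have h2 : 1 + ε < H65.Jump.lag E w / (r : ℝ)⁻¹ ^ r := by rw [hε]; linarith
    rwa [lt_div_iff₀ hrr] at h2
  have hlim : Tendsto (fun n : ℕ => ∑ e ∈ E, ∏ v ∈ e, ((⌊w v * n⌋₊ : ℝ) / n)) atTop
      (𝓝 (H65.Jump.lag E w)) := by
    apply tendsto_finsetSum
    intro e _
    apply tendsto_finsetProd
    intro v _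
    exact (tendsto_nat_floor_mul_div_atTop (hw0 v)).comp tendsto_natCast_atTop_atTop
  have hev := hlim.eventually (lt_mem_nhds hε1)
  obtain ⟨n₀, hn₀⟩ := Filter.eventually_atTop.1 (hev.and (eventually_ge_atTop 1))
  refine ⟨ε, hε0, n₀, fun n hn => ?_⟩
  obtain ⟨hevn, hn0⟩ := hn₀ n hn
  have hn' : (0 : ℝ) < n := by exact_mod_cast hn0
  obtain ⟨φ, hφ⟩ := H65.Jump.exists_map (V := V) n (fun v => ⌊w v * n⌋₊) (by
    have : ((∑ v, ⌊w v * n⌋₊ : ℕ) : ℝ) ≤ n := by
      rw [Nat.cast_sum]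
      calc ∑ v, ((⌊w v * n⌋₊ : ℕ) : ℝ) ≤ ∑ v, w v * n :=
            Finset.sum_le_sum (fun v _ => Nat.floor_le (by have := hw0 v; positivity))
        _ = n := by rw [← Finset.sum_mul, hw1, one_mul]
    exact_mod_cast this)
  refine ⟨H65.Jump.blow r E φ, ?_, ?_, ?_⟩
  · intro A' hA'
    rw [H65.Jump.blow, Finset.mem_filter, Finset.mem_powersetCard] at hA'
    exact hA'.1.2
  · have hcard : ((H65.Jump.blow r E φ).card : ℝ)
        = ∑ e ∈ E, ∏ v ∈ e, ((univ.filter (fun i => φ i = v)).card : ℝ) := by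
      have h1 := H65.Jump.card_blow_induce r E hE φ (univ : Finset (Fin n))
      have h2 : (H65.Jump.blow r E φ).hypergraphInduce univ = H65.Jump.blow r E φ := by
        simp [Finset.hypergraphInduce]
      rw [h2] at h1
      rw [h1]
      push_cast
      rfl
    rw [hcard]
    calc (1 + ε) * ((n : ℝ) / r) ^ r = ((1 + ε) * (r : ℝ)⁻¹ ^ r) * (n : ℝ) ^ r := by
          rw [div_eq_mul_inv, mul_pow]; ring
      _ ≤ (∑ e ∈ E, ∏ v ∈ e, ((⌊w v * n⌋₊ : ℝ) / n)) * (n : ℝ) ^ r := by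
          exact mul_le_mul_of_nonneg_right hevn.le (by positivity)
      _ = ∑ e ∈ E, ∏ v ∈ e, (⌊w v * n⌋₊ : ℝ) := by
          rw [Finset.sum_mul]
          refine Finset.sum_congr rfl (fun e he => ?_)
          rw [Finset.prod_div_distrib, Finset.prod_const, hE e he,
            div_mul_cancel₀ _ (pow_pos hn' r).ne']
      _ ≤ _ := by
          refine Finset.sum_le_sum (fun e _ => ?_)
          exact Finset.prod_le_prod (fun v _ => Nat.cast_nonneg _)
            (fun v _ => by exact_mod_cast hφ v)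
  · intro S hS
    exact H65.Jump.induce_lt r E hE c hup φ S (Finset.card_pos.2 hS)

end Pool.Agent.H62.JumpAll
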